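import Pool.Agent.H98.M.FinalM

/-!
# Kargin's question: the number of components of a uniform random meandric system is
asymptotically normal
-/

open Filter Topology MeasureTheory ProbabilityTheory

namespace Pool.Agent.Results.MP_b7689d_pr.ComponentsCLT

/-- `σ` is (the partner map of) an arc system of size `n`: a perfect matching of the `2n` points
`Fin (2 * n)` without crossing arcs -/
def IsArcSystem (n : ℕ) (σ : Fin (2 * n) → Fin (2 * n)) : Prop :=
  (∀ i, σ (σ i) = i) ∧ (∀ i, σ i ≠ i) ∧ ∀ i j, ¬ (i < j ∧ j < σ i ∧ σ i < σ j)

open Classical in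
/-- the meandric systems of size `n`: pairs (upper arc system, lower arc system) -/
noncomputable def meandricSystems (n : ℕ) :
    Finset ((Fin (2 * n) → Fin (2 * n)) × (Fin (2 * n) → Fin (2 * n))) :=
  Finset.univ.filter (fun p => IsArcSystem n p.1 ∧ IsArcSystem n p.2)

/-- the number of components of the meandric system `p`: the number of connected components of the
graph on the `2n` points whose edges are the upper arcs `{i, p.1 i}` and the lower arcs
`{i, p.2 i}` -/
noncomputable def components (n : ℕ)
    (p : (Fin (2 * n) → Fin (2 * n)) × (Fin (2 * n) → Fin (2 * n))) : ℕ :=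
  Nat.card (SimpleGraph.fromRel (fun i j => p.1 i = j ∨ p.2 i = j)).ConnectedComponent

open Classical in
/-- the probability that a uniform random meandric system of size `n` has a number `c` of
components with `(c - a) / b ≤ t` -/
noncomputable def distributionFunction (n : ℕ) (a b t : ℝ) : ℝ :=
  (((meandricSystems n).filter (fun p => ((components n p : ℝ) - a) / b ≤ t)).card : ℝ) /
    ((meandricSystems n).card : ℝ)

theorem isArcSystem_iff (n : ℕ) (σ : Fin (2 * n) → Fin (2 * n)) :
    IsArcSystem n σ ↔ MeanderCLT.IsArcSys n σ := by
  unfold IsArcSystem MeanderCLT.IsArcSys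
  constructor
  · rintro ⟨h1, h2, h3⟩
    refine ⟨h1, h2, fun i j hij hj => ?_⟩
    rcases lt_trichotomy (σ i) (σ j) with h | h | h
    · exact (h3 i j ⟨hij, hj, h⟩).elim
    · have : i = j := by rw [← h1 i, ← h1 j, h]
      exact absurd this (ne_of_lt hij)
    · exact h
  · rintro ⟨h1, h2, h3⟩
    exact ⟨h1, h2, fun i j h => absurd (h3 i j h.1 h.2.1) (not_lt.mpr h.2.2.le)⟩

/-- **Kargin's question answered in the affirmative.** The number of components of a uniformly
random meandric system of size `n` is asymptotically normal. -/
theorem result : ∃ a b : ℕ → ℝ, (∀ n, 0 < b n) ∧ ∀ t : ℝ,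
    Tendsto (fun n => distributionFunction n (a n) (b n) t) atTop
      (𝓝 ((gaussianReal 0 1).real (Set.Iic t))) := by
  classical
  obtain ⟨a, b, hb, h⟩ := MeanderCLT.main_clt
  refine ⟨a, b, hb, fun t => ?_⟩
  refine (h t).congr (fun n => ?_)
  unfold MeanderCLT.distFun distributionFunction meandricSystems
  rw [Finset.filter_filter]
  congr 2
  · congr 1
    ext p
    simp only [Finset.mem_filter, Finset.mem_univ, true_and, isArcSystem_iff, and_assoc]
    rfl
  · congr 1
    ext p
    simp only [Finset.mem_filter, Finset.mem_univ, true_and, isArcSystem_iff]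

end Pool.Agent.Results.MP_b7689d_pr.ComponentsCLT
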